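import Pool.Agent.Lib.MP_33b3f9_ag.M4.G.NumB

/-!
The inequalities of the arithmetic half.
-/

set_option autoImplicit false

namespace M8.G

open M4.G

/-- All constants that depend on `s, C₁, C₂, dK` are at most `Y` for large `Y`; `log Y ≤ Y`,
`1 ≤ log P`. (c): the left side is at most `const * Y ^ (s + s / 5 + 1)`, the right side at least
`45 ^ (-s) / 2 * Y ^ (49 / 40 * s)`, and `s / 40 ≥ 5 / 2`. (d): the left side is at most
`const * Y ^ (s + 7 / 8 * (s + 1))`. -/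
theorem arith_num (s : ℕ) (hs : 100 ≤ s) (C₁ C₂ : ℝ) (dK : ℕ) :
    ∃ Y₀ : ℕ, ∀ Y P n NP : ℕ, Y₀ ≤ Y → (Y : ℝ) ^ (5 / 4 * s : ℝ) ≤ P →
      (P : ℝ) ≤ (Y : ℝ) ^ (5 / 4 * (s + 1) : ℝ) → (Y : ℝ) ^ (1 - 1 / 50 : ℝ) ≤ n →
      (P : ℝ) ^ (1 - 1 / 50 : ℝ) ≤ NP →
      (Y : ℝ) ^ (198 / 100 : ℝ) ≤ (n * Y : ℕ) ∧ 2 * Y < P ∧ 0 < NP ∧
      (∀ k cS : ℕ, (k : ℝ) ≤ (Y : ℝ) ^ (s / 5 : ℝ) → cS ≤ (9 * Y ^ 2) ^ s →
        2 * (dK : ℝ) * ((9 * Y) ^ s : ℕ) *
          (Real.log cS + k * Real.log (max 1 (|C₁| * ((2 * Y : ℝ) ^ s) ^ 32))) ≤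
          (1 / 45 : ℝ) ^ s / 2 * NP * Real.log P) ∧
      4 * (⌊|C₂| * (2 * P : ℝ) ^ (7 / 10 : ℝ)⌋₊ : ℝ) * ((9 * Y) ^ s : ℕ) / (1 / 45 : ℝ) ^ s ≤
        (Y : ℝ) ^ (19 / 10 * s : ℝ) := by
  obtain ⟨Y₀, hY⟩ := exists_nat_ge (9 + |C₁| + 4 * dK * (67 * s + 1) * (9 ^ s * 45 ^ s) +
    8 * |C₂| * (9 ^ s * 45 ^ s) : ℝ)
  refine ⟨Y₀, fun Y P n NP h0 h1 h2 h3 h4 => ?_⟩
  have hs' : (100 : ℝ) ≤ s := by exact_mod_cast hs
  have h5 := hY.trans (Nat.cast_le.2 h0)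
  have p1 : (0 : ℝ) ≤ 4 * dK * (67 * s + 1) * (9 ^ s * 45 ^ s) := by positivity
  have p2 : (0 : ℝ) ≤ 8 * |C₂| * (9 ^ s * 45 ^ s) := by positivity
  have p3 := abs_nonneg C₁
  have y9 : (9 : ℝ) ≤ Y := by linarith
  have y1 : (1 : ℝ) ≤ Y := by linarith
  have y0 : (0 : ℝ) < Y := by linarith
  have hP : (Y : ℝ) ^ 2 ≤ P := by
    rw [← Real.rpow_two]
    exact (Real.rpow_le_rpow_of_exponent_le y1 (by linarith)).trans h1
  have hN : (Y : ℝ) ^ (49 / 40 * s : ℝ) ≤ NP := by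
    refine le_trans (le_of_eq ?_) ((Real.rpow_le_rpow (by positivity) h1 (by norm_num)).trans h4)
    rw [← Real.rpow_mul y0.le]
    congr 1
    ring
  have hl := (Real.log_le_self y0.le)
  refine ⟨?_, ?_, ?_, fun k cS hk hc => ?_, ?_⟩
  · rw [show (198 / 100 : ℝ) = 1 - 1 / 50 + 1 by norm_num, Real.rpow_add_one y0.ne', Nat.cast_mul]
    gcongr
  · exact_mod_cast (by nlinarith : 2 * (Y : ℝ) < P)
  · exact_mod_cast (Real.rpow_pos_of_pos y0 _).trans_le hN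
  · have a1 : Real.log cS ≤ 3 * s * Y := by
      refine numB_log y1 (m := 3 * s) (Nat.cast_nonneg _) ?_ |>.trans (by push_cast; rfl)
      refine (Nat.cast_le.2 hc).trans ?_
      push_cast
      rw [pow_mul]
      gcongr
      nlinarith
    have a2 : Real.log (max 1 (|C₁| * ((2 * Y : ℝ) ^ s) ^ 32)) ≤ (64 * s + 1) * Y := by
      refine numB_log y1 (m := 2 * s * 32 + 1) (by positivity) (max_le (one_le_pow₀ y1) ?_)
        |>.trans (le_of_eq (by push_cast; ring))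
      rw [pow_succ' (Y : ℝ), pow_mul, pow_mul]
      gcongr
      · linarith
      · nlinarith
    have a3 : 1 ≤ (Y : ℝ) ^ (s / 5 : ℝ) := Real.one_le_rpow y1 (by positivity)
    have a4 : 1 ≤ Real.log P := (Real.le_log_iff_exp_le (by nlinarith)).2
      (Real.exp_one_lt_d9.le.trans (by nlinarith))
    have a5 : (Y : ℝ) * Y * Y ^ s * Y ^ (s / 5 : ℝ) ≤ NP := by
      refine le_trans ?_ hN
      rw [← pow_two, ← pow_add, ← Real.rpow_natCast, ← Real.rpow_add y0]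
      exact Real.rpow_le_rpow_of_exponent_le y1 (by push_cast; linarith)
    calc _ ≤ 2 * (dK : ℝ) * ((9 * Y) ^ s : ℕ) *
          (Y ^ (s / 5 : ℝ) * (3 * s * Y) + Y ^ (s / 5 : ℝ) * ((64 * s + 1) * Y)) := by
          gcongr
          · exact a1.trans (le_mul_of_one_le_left (by positivity) a3)
          · exact Real.log_nonneg (le_max_left _ _)
      _ = (1 / 45 : ℝ) ^ s / 2 *
          (4 * dK * (67 * s + 1) * (9 ^ s * 45 ^ s) * Y * Y ^ s * Y ^ (s / 5 : ℝ)) * 1 := by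
          push_cast
          rw [mul_pow, one_div, inv_pow]
          field_simp
          ring
      _ ≤ _ := by
          gcongr
          refine le_trans ?_ a5
          gcongr
          linarith
  · have a1 : (2 * P : ℝ) ^ (7 / 10 : ℝ) ≤ 2 * Y ^ (7 / 8 * (s + 1) : ℝ) := by
      rw [Real.mul_rpow zero_le_two (Nat.cast_nonneg _),
        show (7 / 8 * (s + 1) : ℝ) = 5 / 4 * (s + 1) * (7 / 10) by ring, Real.rpow_mul y0.le]
      gcongr
      exact (Real.rpow_le_rpow_of_exponent_le one_le_two (by norm_num)).trans_eq (Real.rpow_one 2)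
    calc _ ≤ 4 * (|C₂| * (2 * Y ^ (7 / 8 * (s + 1) : ℝ))) * ((9 * Y) ^ s : ℕ) / (1 / 45 : ℝ) ^ s := by
          gcongr
          exact (Nat.floor_le (by positivity)).trans (by gcongr)
      _ = 8 * |C₂| * (9 ^ s * 45 ^ s) * Y ^ s * Y ^ (7 / 8 * (s + 1) : ℝ) := by
          push_cast
          rw [mul_pow, one_div, inv_pow]
          field_simp
          ring
      _ ≤ Y * Y ^ s * Y ^ (7 / 8 * (s + 1) : ℝ) := by
          gcongr
          linarith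
      _ ≤ _ := by
          rw [← pow_succ', ← Real.rpow_natCast, ← Real.rpow_add y0]
          exact Real.rpow_le_rpow_of_exponent_le y1 (by push_cast; linarith)

end M8.G
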