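import Pool.Agent.Lib.MP_33b3f9_ag.M8.G.Fam
import Pool.Agent.Lib.MP_33b3f9_ag.M4.G.Det
import Pool.Agent.Lib.MP_33b3f9_ag.M8.G.NumB
import Pool.Agent.Lib.MP_33b3f9_ag.M4.NTSieve

/-!
The arithmetic half.
-/

set_option autoImplicit false

namespace M8.G

open Matrix M4 M4.G Pool.Agent.M4.Det

variable {K : IntermediateField ℚ ℂ} {r : Rep K} {A : FA} {A' : FB} {τ : Mat}
  {Y n s : ℕ} {LL : Fin s → Finset ℕ}

theorem Blk.equiv (H : Blk r A A' Y n LL) {g : Tup A LL → MZ}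
    (hg : ∀ ξ, Iso (g ξ) (∏ i, (ξ i).1.1) ∧ ∀ i, Ker (g ξ) (ξ i).1.1 = (ξ i).1.2)
    {y : ℕ → AddSubgroup (ν → ℤ) → Bits → ℂ}
    (hy : ∀ (g : MZ) (M : ℕ), Iso g M → ∀ (σ : ℂ ≃ₐ[K] ℂ) (R g' : MZ), Cong r σ M R → Iso g' M →
      (∀ x ∈ Ker g M, R *ᵥ x ∈ Ker g' M) → ∀ i, σ (y M (Ker g M) i) = y M (Ker g' M) i)
    (σ : ℂ ≃ₐ[K] ℂ) (ξ ξ' : Tup A LL) (hl : ∀ i, (ξ' i).1.1 = (ξ i).1.1)
    (h : ∀ i R, Cong r σ (ξ i).1.1 R → ∀ x ∈ (ξ i).1.2, R *ᵥ x ∈ (ξ' i).1.2) (j : Bits) :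
    σ (y (∏ i, (ξ i).1.1) (Ker (g ξ) (∏ i, (ξ i).1.1)) j) =
      y (∏ i, (ξ' i).1.1) (Ker (g ξ') (∏ i, (ξ' i).1.1)) j := by
  have e : ∏ i, (ξ' i).1.1 = ∏ i, (ξ i).1.1 := Finset.prod_congr rfl fun i _ => hl i
  obtain ⟨R, hR⟩ := exists_cong r σ (iso_pos (hg ξ).1).ne'
  rw [e]
  refine hy _ _ (hg ξ).1 σ R _ hR (e ▸ (hg ξ').1) (fun x hx => ?_) j
  rw [mem_ker_prod (fun i => (H.okt ξ i).prime) (H.inj ξ)] at hx ⊢
  intro i
  rw [← hl i, (hg ξ').2]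
  exact h i R (cong_of_dvd hR (Finset.dvd_prod_of_mem _ (Finset.mem_univ i))) x
    ((hg ξ).2 i ▸ hx i)

open Classical in
/-- Many tuples are conjugate to a tuple that is stable under a given set of automorphisms. -/
theorem Blk.dense (H : Blk r A A' Y n LL) (Q : ℕ → Prop) (D : (ℂ ≃ₐ[K] ℂ) → Prop)
    (hQ : ∀ i, n ≤ 5 * ((LL i).filter Q).card)
    (hD : ∀ i, ∀ l ∈ LL i, Q l → ∃ f w, w ≠ 0 ∧ ∀ σ, D σ → Stab r σ l (slot (A l) f w)) :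
    (1 / 45 : ℝ) ^ s * Nat.card (Tup A LL) ≤ {ξ | ∃ σ, H.act σ ξ ∈ {ξ : Tup A LL |
      ∀ i, Q (ξ i).1.1 ∧ ∀ σ, D σ → Stab r σ (ξ i).1.1 (ξ i).1.2}}.ncard := by
  have : ∀ i, Finite (Sg (LL i) (SU A)) := fun i => (H.om i).1.to_subtype
  have h0 : ∀ l, ∃ f w, (∃ i, l ∈ LL i) → Q l →
      w ≠ 0 ∧ ∀ σ, D σ → Stab r σ l (slot (A l) f w) := fun l => by
    by_cases h : (∃ i, l ∈ LL i) ∧ Q l
    · obtain ⟨⟨i, hi⟩, hq⟩ := h
      obtain ⟨f, w, h⟩ := hD i l hi hq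
      exact ⟨f, w, fun _ _ => h⟩
    · exact ⟨0, 0, fun h1 h2 => absurd ⟨h1, h2⟩ h⟩
  choose f w hw using h0
  have h1 : (Set.univ.pi fun i => (Subtype.val ⁻¹' Sg ((LL i).filter Q) fun l => SL (A l) (f l) :
      Set (Sg (LL i) (SU A)))) ⊆ {ξ | ∃ σ, H.act σ ξ ∈ {ξ : Tup A LL |
      ∀ i, Q (ξ i).1.1 ∧ ∀ σ, D σ → Stab r σ (ξ i).1.1 (ξ i).1.2}} := fun ξ hξ => by
    have hq : ∀ i, Q (ξ i).1.1 := fun i => (Finset.mem_filter.1 (hξ i trivial).1).2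
    have hw' := fun i => hw _ ⟨i, (ξ i).2.1⟩ (hq i)
    obtain ⟨σ, hσ⟩ := H.trans ξ (fun i => ⟨((ξ i).1.1, slot (A _) (f _) (w _)), (ξ i).2.1,
      Set.mem_iUnion.2 ⟨_, _, (hw' i).1, rfl⟩⟩) (fun i => f (ξ i).1.1) (fun _ => rfl)
      (fun i => (hξ i trivial).2) fun i => ⟨_, (hw' i).1, rfl⟩
    exact ⟨σ, by rw [hσ]; exact fun i => ⟨hq i, (hw' i).2⟩⟩
  refine le_trans ?_ (Nat.cast_le.2 (Set.ncard_le_ncard h1 (Set.toFinite _)))
  rw [ncard_pi, Nat.card_pi, ← Fin.prod_const, Nat.cast_prod, Nat.cast_prod,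
    ← Finset.prod_mul_distrib]
  refine Finset.prod_le_prod (fun _ _ => by positivity) fun i _ => ?_
  rw [Set.ncard_preimage_of_injective_subset_range Subtype.val_injective (by
    rw [Subtype.range_coe]
    exact fun q hq => ⟨(Finset.mem_filter.1 hq.1).1, Set.mem_iUnion.2 ⟨_, hq.2⟩⟩),
    (sg_card fun l hl => ((H.ok i l (Finset.mem_filter.1 hl).1).sl _).1).2, Nat.card_coe_set_eq]
  have h2 : ((LL i).filter Q).card * Y ≤ ∑ l ∈ (LL i).filter Q, (SL (A l) (f l)).ncard :=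
    Finset.card_nsmul_le_sum _ _ _ fun l hl => (H.big i l (Finset.mem_filter.1 hl).1).1.le.trans
      ((H.ok i l (Finset.mem_filter.1 hl).1).sl _).2.1
  have h3 := (H.om i).2.2.trans (Nat.mul_le_mul_right _ (hQ i))
  have h4 : (Sg (LL i) (SU A)).ncard ≤ 45 * ∑ l ∈ (LL i).filter Q, (SL (A l) (f l)).ncard := by
    nlinarith
  have h5 : ((Sg (LL i) (SU A)).ncard : ℝ) ≤
      45 * (∑ l ∈ (LL i).filter Q, (SL (A l) (f l)).ncard : ℕ) := by exact_mod_cast h4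
  linarith

theorem arith {a b : MZ} (h : AV τ K r) (hco : COMM a b r) (hmu : MUst r) (hl : LAGRst)
    (hp : POINTSst τ r) (F : Type) [Field F] [NumberField F] (hF : Module.finrank ℚ F = 3)
    (hc : CBst τ r F) : ARITHst (Ist a b) τ := by
  classical
  intro s₀
  have := h.fin
  obtain ⟨L, _, _, l₁, A, A', G, t, Δ, C, hTS, hG, hPl, hcb⟩ := hc
  obtain ⟨C₁, y, hy⟩ := hp
  obtain ⟨s, hs, hsv⟩ := NT.sieve F L hF G hG t Δ hPl (a := 5 / 4) (φ := 1 / 50) (by norm_num)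
    (by norm_num) (max s₀ 100)
  obtain ⟨Y₁, hnum⟩ := arith_num s (le_of_max_le_right hs) C₁ C (Module.finrank ℚ K)
  refine ⟨s, le_of_max_le_left hs, (1 / 45) ^ s / 2, by positivity, fun Y₀ => ?_⟩
  obtain ⟨Y, P, n, PP, LL, hY, hP1, hP2, hn, hNP, hPP, hLn, hdis, hLL, hjac⟩ :=
    hsv (max (max Y₀ Y₁) (l₁ + 1))
  obtain ⟨n1, n2, n3, n4, n5⟩ := hnum Y P n PP.card
    (le_of_max_le_right (le_of_max_le_left hY)) hP1 hP2 hn hNP
  have hl₁ : ∀ i, ∀ l ∈ LL i, l₁ < l := fun i l hl =>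
    lt_trans (le_of_max_le_right hY) (hLL i l hl).2.1
  have H : Blk r A A' Y n LL :=
    ⟨fun i l hl => ⟨⟨(hLL i l hl).1⟩, @hTS l ⟨(hLL i l hl).1⟩ (hl₁ i l hl) (hLL i l hl).2.2.2⟩,
      fun i l hl => ⟨(hLL i l hl).2.1, (hLL i l hl).2.2.1⟩, hLn, hdis⟩
  obtain ⟨g, hg⟩ := H.exists_fam hmu hl
  have : ∀ i, Fintype (Sg (LL i) (SU A)) := fun i => (H.om i).1.fintype
  have heq := H.equiv hg fun g M hM => (hy g M hM).2.2.2
  choose c hc0 hc using fun ξ => (hy _ _ (hg ξ).1).1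
  have hMle : ∀ ξ : Tup A LL, ((∏ i, (ξ i).1.1 : ℕ) : ℝ) ≤ (2 * Y : ℝ) ^ s := fun ξ => by
    have := Finset.prod_le_pow_card Finset.univ (fun i => (ξ i).1.1) (2 * Y)
      fun i _ => (H.big i _ (ξ i).2.1).2
    rw [Finset.card_univ, Fintype.card_fin] at this
    exact_mod_cast this
  have hpl : ∀ p ∈ PP, ∃ T : Set (Tup A LL),
      FewRed (fun ξ : Tup A LL => y (∏ i, (ξ i).1.1) (Ker (g ξ) (∏ i, (ξ i).1.1))) p
        ⌊|C| * (2 * P : ℝ) ^ (7 / 10 : ℝ)⌋₊ T ∧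
      (1 / 45 : ℝ) ^ s * Fintype.card (Tup A LL) ≤ {ξ | ∃ σ, H.act σ ξ ∈ T}.ncard := by
    intro p hp
    obtain ⟨hpG, hp1, hp2⟩ := hPP p hp
    have : Fact p.Prime := ⟨(hPl p hpG).prime⟩
    obtain ⟨e, he, hst, k, cl, hk, hcl⟩ := hcb p hpG
    have hne : ∀ i, ∀ l ∈ LL i, l ≠ p := fun i l hl => by
      have := (hLL i l hl).2.2.1
      omega
    have hk' : k ≤ ⌊|C| * (2 * P : ℝ) ^ (7 / 10 : ℝ)⌋₊ := Nat.le_floor (hk.trans
      (mul_le_mul (le_abs_self C) (Real.rpow_le_rpow (by positivity) (by exact_mod_cast hp2)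
        (by norm_num)) (by positivity) (abs_nonneg C)))
    refine ⟨_, ?_, Nat.card_eq_fintype_card (α := Tup A LL) ▸
      H.dense (fun l => jacobiSym (Δ p) l = 1) (fun σ => NT.Dec e σ) (fun i => ?_)
        fun i l hl hq => hst l (hLL i l hl).1 (hl₁ i l hl) (hne i l hl) (hLL i l hl).2.2.2 hq⟩
    · have hgood : ∀ ξ : Tup A LL, (∀ i, jacobiSym (Δ p) (ξ i).1.1 = 1 ∧
          ∀ σ : ℂ ≃ₐ[K] ℂ, NT.Dec e σ → Stab r σ (ξ i).1.1 (ξ i).1.2) →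
          Good r L l₁ A e (Δ p) (g ξ) (∏ i, (ξ i).1.1) := fun ξ hξ =>
        ⟨(hg ξ).1, fun l hl hd => by
          obtain ⟨i, rfl⟩ := H.eq_of_dvd ξ hl hd
          rw [(hg ξ).2]
          exact ⟨hl₁ i _ (ξ i).2.1, hne i _ (ξ i).2.1, (hLL i _ (ξ i).2.1).2.2.2, (hξ i).1,
            Set.mem_iUnion.1 (ξ i).2.2, (hξ i).2⟩⟩
      refine fewRed_of_place he (fun ξ => (hy _ _ (hg ξ).1).2.1) (fun ξ hξ u => ?_)
        (fun ξ => Fin.castLE hk' (cl (g ξ) (∏ i, (ξ i).1.1))) fun ξ hξ ξ' hξ' hh => ?_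
      · refine heq _ ξ ξ (fun _ => rfl) fun i => (hξ i).2 _ ?_
        rintro x ⟨q, hq⟩
        exact e.injective (by rw [e_dec, ← hq, u.commutes])
      · simp only [hc]
        exact sameRed_smul (hc0 ξ) (hc0 ξ')
          (hcl _ _ _ _ (hgood ξ hξ) (hgood ξ' hξ') (Fin.castLE_injective _ hh))
    · convert hjac p hp i
  choose! St hSt hden using hpl
  obtain ⟨X, hX, hhil⟩ := det_dense K H.act _
    (fun σ ξ => heq σ ξ (H.act σ ξ) (fun _ => rfl) fun i R hR x hx =>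
      cong_mem_mv (H.okt ξ i).prime hR hx)
    (fun ξ => (hy _ _ (hg ξ).1).2.1) (le_max_left 1 (|C₁| * ((2 * Y : ℝ) ^ s) ^ 32))
    (fun φ ξ i => ((hy _ _ (hg ξ).1).2.2.1 φ i).trans (le_max_of_le_right
      (mul_le_mul (le_abs_self _) (pow_le_pow_left₀ (by positivity) (hMle ξ) _) (by positivity)
        (abs_nonneg _))))
    H.orbit PP (Finset.card_pos.1 n3) (P := P) (by
      have := le_of_max_le_right hY
      exact_mod_cast (by omega : 1 < P))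
    (fun p hp => ⟨(hPl p (hPP p hp).1).prime, by exact_mod_cast (hPP p hp).2.1⟩) St hSt
    (by positivity) hden
  refine ⟨Y, le_of_max_le_left (le_of_max_le_left hY), _, inferInstance, X, g, _, n * Y,
    H.fam hco hg X, n1, fun i => ?_, ?_, fun μ hμ => ?_⟩
  · rw [← Nat.card_eq_fintype_card, Nat.card_coe_set_eq]
    exact (H.om i).2.1
  · rw [← Nat.cast_prod, ← Fintype.card_pi]
    exact hX
  · rw [← hil_smul (fun ξ : X => c ξ) fun ξ => hc0 ξ]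
    simp only [← hc]
    refine (hhil μ (n4 μ _ hμ ?_)).trans n5
    rw [Fintype.card_pi]
    refine (Finset.prod_le_pow_card _ _ (9 * Y ^ 2) fun i _ => ?_).trans (by simp)
    rw [← Nat.card_eq_fintype_card, Nat.card_coe_set_eq]
    refine (H.om i).2.2.trans ((Nat.mul_le_mul_right _ (H.n_le i)).trans (le_of_eq ?_))
    ring

end M8.G
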