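import Pool.Agent.Lib.MP_33b3f9_ag.M8.G.Slot
import Pool.Agent.Lib.MP_33b3f9_ag.M4.G.Lag

/-!
The subgroups attached to the lines in a slot are Lagrangian.
-/

set_option autoImplicit false

namespace M8.G

open Matrix M4 M4.G Pool.Agent.M4 Pool.Agent.M4.Mx
open scoped Kronecker

/-- `(1 + N) ^ l = 1 + l • N = 1`, so `c ^ l = 1` and `c = 1` (`ZMod.pow_card`). Then
`Nᵀ J + J N + Nᵀ J N = 0`; multiply by `N` on the right: `Nᵀ J N = 0`. -/
theorem nil_adj {l : ℕ} [Fact l.Prime] {N : Matrix ν ν (ZMod l)} (hN : N * N = 0) {c : ZMod l}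
    (h : (1 + N)ᵀ * J (Fin 8) (ZMod l) * (1 + N) = c • J (Fin 8) (ZMod l)) :
    Nᵀ * J (Fin 8) (ZMod l) = -(J (Fin 8) (ZMod l) * N) := by
  have hT : Nᵀ * Nᵀ = 0 := by rw [← transpose_mul, hN, transpose_zero]
  have hJ := J_squared (Fin 8) (ZMod l)
  generalize J (Fin 8) (ZMod l) = B at h hJ ⊢
  have e : B + B * N + Nᵀ * B + Nᵀ * B * N = c • B := by
    rw [← h, transpose_add, transpose_one]
    noncomm_ring
  have e1 : B * N + Nᵀ * B * N = c • (B * N) := by
    rw [← smul_mul_assoc, ← e]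
    simp only [add_mul, Matrix.mul_assoc, hN, Matrix.mul_zero, add_zero]
  have e2 : Nᵀ * B * N = c • (Nᵀ * B * N) := by
    have := congrArg (fun X => Nᵀ * X) e1
    simpa only [mul_add, ← Matrix.mul_assoc, hT, Matrix.zero_mul, add_zero, mul_smul_comm]
      using this
  by_cases hc : c = 1
  · subst hc
    rw [one_smul, add_eq_left] at e1
    rw [e1, one_smul, add_zero, add_assoc, add_eq_left] at e
    exact eq_neg_of_add_eq_zero_right e
  · have h1 : ∀ X : Matrix ν ν (ZMod l), X = c • X → X = 0 := fun X hX => by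
      have h2 : (1 - c) • X = 0 := by rw [sub_smul, one_smul, ← hX, sub_self]
      exact (smul_eq_zero.1 h2).resolve_left (sub_ne_zero.2 (Ne.symm hc))
    rw [h1 _ e2, add_zero] at e1
    have h3 : B * (B * N) = 0 := by rw [h1 _ e1, Matrix.mul_zero]
    rw [← Matrix.mul_assoc, hJ, neg_mul, one_mul, neg_eq_zero] at h3
    simp [h3]

theorem tq_rank_one {R : Type} [CommRing R] (f : Fin 3) (v₀ w : Fin 2 → R) (v : κ × Fin 2 → R)
    (i : κ) (c : Fin 2) :
    ((tp (Function.update 1 f (vecMulVec v₀ w)) ⊗ₖ (1 : M2 R)) *ᵥ v) (i, c) =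
      v₀ (i f) * ∑ a, w a * v (Function.update i f a, c) := by
  rw [kron_one_mulVec, tp_rank_one]

theorem ker_eq_imq {k : Type} [Field k] (f : Fin 3) {w : Fin 2 → k} (hw : w ≠ 0)
    (v : κ × Fin 2 → k) (h : ∀ i c, ∑ a, w a * v (Function.update i f a, c) = 0) :
    ∃ v', v = (tp (Function.update 1 f (vecMulVec ![-w 1, w 0] w)) ⊗ₖ (1 : M2 k)) *ᵥ v' := by
  choose v' hv' using fun c => (ker_eq_im f hw fun j => v (j, c)).1 fun i => h i c
  refine ⟨fun q => v' q.2 q.1, funext fun q => ?_⟩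
  obtain ⟨i, c⟩ := q
  rw [kron_one_mulVec]
  exact congrFun (hv' c) i

/-- The reduction of the slot is the kernel and the image of a nilpotent matrix `N` with
`1 + N` a similitude. -/
theorem lag_slot {K : IntermediateField ℚ ℂ} {r : Rep K} (hmu : MUst r) {l : ℕ} [Fact l.Prime]
    {A : Matrix (κ × Fin 2) ν (ZMod l)} {A' : Matrix ν (κ × Fin 2) (ZMod l)}
    (hT : TS r l A A') (f : Fin 3) {w : Fin 2 → ZMod l} (hw : w ≠ 0) : Lag l (slot A f w) := by
  have hn : vecMulVec ![-w 1, w 0] w * vecMulVec ![-w 1, w 0] w = 0 := by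
    ext a b
    simp only [mul_apply, vecMulVec_apply, Fin.sum_univ_two, cons_val_zero, cons_val_one,
      Matrix.zero_apply]
    ring
  obtain ⟨σ, hσ⟩ := hT.big f (1 + vecMulVec ![-w 1, w 0] w) (by
    simp [det_fin_two]
    ring)
  have hker := ker_eq_imq f hw
  have hone := tq_rank_one f ![-w 1, w 0] w
  have h1 : Function.update (1 : Fin 3 → Matrix (Fin 2) (Fin 2) (ZMod l)) f 1 = 1 :=
    Function.update_eq_self f _
  rw [Mx.tp_update_add, h1, Mx.tp_one, add_kronecker, one_kronecker_one] at hσ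
  have hTT : tp (Function.update 1 f (vecMulVec ![-w 1, w 0] w)) ⊗ₖ (1 : M2 (ZMod l)) *
      tp (Function.update 1 f (vecMulVec ![-w 1, w 0] w)) ⊗ₖ (1 : M2 (ZMod l)) = 0 := by
    rw [kron_one_mul, Mx.tp_mul, ← Function.update_mul, hn, mul_one, ← zero_smul (ZMod l) 0,
      Mx.tp_update_smul, zero_smul, zero_kronecker]
  generalize tp (Function.update 1 f (vecMulVec ![-w 1, w 0] w)) ⊗ₖ (1 : M2 (ZMod l)) = T
    at hσ hker hone hTT
  have hr : rb r l σ = 1 + A' * T * A := by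
    calc rb r l σ = (A' * A) * rb r l σ * (A' * A) := by rw [hT.inv', one_mul, mul_one]
      _ = A' * (A * rb r l σ * A') * A := by simp only [Matrix.mul_assoc]
      _ = _ := by rw [hσ, Matrix.mul_add, Matrix.add_mul, Matrix.mul_one, hT.inv']
  have hAN : A * (A' * T * A) = T * A := by
    rw [← Matrix.mul_assoc, ← Matrix.mul_assoc, hT.inv, one_mul]
  have hN : A' * T * A * (A' * T * A) = 0 := by
    rw [Matrix.mul_assoc (A' * T), hAN, ← Matrix.mul_assoc, Matrix.mul_assoc A', hTT,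
      Matrix.mul_zero, Matrix.zero_mul]
  obtain ⟨c, hc, -⟩ := hmu l σ
  have hJ : (J (Fin 8) ℤ_[l]).map PadicInt.toZMod = J (Fin 8) (ZMod l) := by
    ext a b
    rcases a with a | a <;> rcases b with b | b <;> simp [J, one_apply, apply_ite]
  have hc' : (rb r l σ)ᵀ * J (Fin 8) (ZMod l) * rb r l σ =
      PadicInt.toZMod c • J (Fin 8) (ZMod l) := by
    have h2 := congrArg (fun X : Matrix ν ν ℤ_[l] => X.map PadicInt.toZMod) hc
    simp only [Matrix.map_mul, hJ, transpose_map] at h2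
    rw [rb, h2, ← hJ]
    ext a b
    simp only [map_apply, Matrix.smul_apply, smul_eq_mul, map_mul]
  rw [hr] at hc'
  have hadj := nil_adj hN hc'
  have hv : ∃ a, (![-w 1, w 0] : Fin 2 → ZMod l) a ≠ 0 := by
    by_contra h
    push Not at h
    exact hw (by funext a; fin_cases a; simpa using h 1; simpa using h 0)
  have m1 : ∀ x : ν → ℤ, x ∈ slot A f w ↔ (A' * T * A) *ᵥ Kz.vZ l x = 0 := fun x => by
    constructor
    · intro hx
      have h2 : T *ᵥ A *ᵥ Kz.vZ l x = 0 := funext fun i => by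
        obtain ⟨i, d⟩ := i
        rw [hone]
        exact mul_eq_zero_of_right _ (hx i d)
      rw [← mulVec_mulVec, ← mulVec_mulVec, h2, mulVec_zero]
    · intro hx i d
      obtain ⟨a, ha⟩ := hv
      have h2 : T *ᵥ A *ᵥ Kz.vZ l x = 0 := by
        rw [mulVec_mulVec, ← hAN, ← mulVec_mulVec, hx, mulVec_zero]
      have h3 := congrFun h2 (Function.update i f a, d)
      rw [hone] at h3
      simp only [Function.update_self, Function.update_idem, Pi.zero_apply] at h3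
      exact (mul_eq_zero.1 h3).resolve_left ha
  have m2 : ∀ x ∈ slot A f w, ∃ z, Kz.vZ l x = (A' * T * A) *ᵥ z := fun x hx => by
    obtain ⟨v', hv'⟩ := hker (A *ᵥ Kz.vZ l x) hx
    refine ⟨A' *ᵥ v', ?_⟩
    rw [mulVec_mulVec, Matrix.mul_assoc, hT.inv, Matrix.mul_one, ← mulVec_mulVec, ← hv',
      mulVec_mulVec, hT.inv', one_mulVec]
  have m3 : ∀ x y : ν → ℤ, (l : ℤ) ∣ x ⬝ᵥ J (Fin 8) ℤ *ᵥ y ↔
      Kz.vZ l x ⬝ᵥ J (Fin 8) (ZMod l) *ᵥ Kz.vZ l y = 0 := fun x y => by
    rw [← ZMod.intCast_zmod_eq_zero_iff_dvd]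
    have h2 : ∀ a b, ((J (Fin 8) ℤ a b : ℤ) : ZMod l) = J (Fin 8) (ZMod l) a b := fun a b => by
      rcases a with a | a <;> rcases b with b | b <;> simp [J, one_apply, apply_ite]
    simp only [dotProduct, mulVec, Kz.vZ, Int.cast_sum, Int.cast_mul, h2]
  generalize A' * T * A = N at m1 m2 hN hadj
  have m4 : ∀ z y : ν → ZMod l, (N *ᵥ z) ⬝ᵥ J (Fin 8) (ZMod l) *ᵥ y =
      -(z ⬝ᵥ J (Fin 8) (ZMod l) *ᵥ N *ᵥ y) := fun z y => by
    rw [← vecMul_transpose, ← dotProduct_mulVec, mulVec_mulVec, hadj, neg_mulVec, dotProduct_neg,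
      mulVec_mulVec]
  intro y
  constructor
  · intro hy x hx
    obtain ⟨z, hz⟩ := m2 x hx
    rw [m3, hz, m4, (m1 y).1 hy, mulVec_zero, dotProduct_zero, neg_zero]
  · intro hy
    have h2 : J (Fin 8) (ZMod l) *ᵥ N *ᵥ Kz.vZ l y = 0 := by
      refine dotProduct_eq_zero _ fun z => ?_
      have e : Kz.vZ l (Kz.lift (N *ᵥ z)) = N *ᵥ z := by
        funext i
        simp [Kz.vZ, Kz.lift]
      have h3 := (m3 _ y).1 (hy (Kz.lift (N *ᵥ z))
        ((m1 _).2 (by rw [e, mulVec_mulVec, hN, zero_mulVec])))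
      rw [e, m4, neg_eq_zero] at h3
      rw [dotProduct_comm, h3]
    have h4 := congrArg (fun u => J (Fin 8) (ZMod l) *ᵥ u) h2
    simp only [mulVec_zero] at h4
    rw [mulVec_mulVec, J_squared, neg_mulVec, one_mulVec, neg_eq_zero] at h4
    exact (m1 y).2 h4

end M8.G
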