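import Pool.Agent.Lib.MP_33b3f9_ag.M8.G.SlotB
import Pool.Agent.Lib.MP_33b3f9_ag.M8.G.Lag
import Pool.Agent.Lib.MP_33b3f9_ag.M8.G.Mat
import Pool.Agent.Lib.MP_33b3f9_ag.M4.G.Fam

/-!
The set of tuples of subgroups, the Galois action on it, and the family of similitudes.
-/

set_option autoImplicit false

noncomputable section

namespace M8.G

open Matrix M4 M4.G Pool.Agent.M4.Mx

/-- Families of frames modulo `l`. -/
abbrev FA : Type := ∀ l : ℕ, Matrix (κ × Fin 2) ν (ZMod l)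

/-- Families of inverse frames modulo `l`. -/
abbrev FB : Type := ∀ l : ℕ, Matrix ν (κ × Fin 2) (ZMod l)

/-- All subgroups of slot type at `l`. -/
def SU (A : FA) (l : ℕ) : Set (AddSubgroup (ν → ℤ)) := ⋃ f, SL (A l) f

variable {K : IntermediateField ℚ ℂ} {r : Rep K} {A : FA} {A' : FB}

/-- Primes with a tensor structure. -/
def Ok (r : Rep K) (A : FA) (A' : FB) (l : ℕ) : Prop :=
  ∃ _ : Fact l.Prime, l ≡ 1 [MOD 32] ∧ TS r l (A l) (A' l)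

namespace Ok

variable {l : ℕ}

theorem prime (h : Ok r A A' l) : l.Prime := h.1.out

theorem mv_mem (h : Ok r A A' l) (σ : ℂ ≃ₐ[K] ℂ) {f : Fin 3} {G : AddSubgroup (ν → ℤ)}
    (hG : G ∈ SL (A l) f) : mv (rbn r l σ) G ∈ SL (A l) f := by
  obtain ⟨_, -, h⟩ := h
  obtain ⟨u, hu⟩ := h.im σ
  refine mv_mem_SL h.inv h.inv' (B' := rbn r l σ⁻¹) ?_ (rbn_eq r l σ ▸ hu) hG
  rw [← map_mul, mul_inv_cancel, map_one]

theorem mv_one {f : Fin 3} {G : AddSubgroup (ν → ℤ)} (hG : G ∈ SL (A l) f) :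
    mv (rbn r l 1) G = G := by
  obtain ⟨w, -, rfl⟩ := hG
  rw [map_one, mv_one_slot]

theorem mv_mul (h : Ok r A A' l) (σ σ' : ℂ ≃ₐ[K] ℂ) (G : AddSubgroup (ν → ℤ)) :
    mv (rbn r l (σ * σ')) G = mv (rbn r l σ) (mv (rbn r l σ') G) := by
  have : NeZero l := ⟨h.prime.ne_zero⟩
  rw [map_mul, M8.G.mv_mul]

theorem sl (h : Ok r A A' l) (f : Fin 3) :
    (SL (A l) f).Finite ∧ l ≤ (SL (A l) f).ncard ∧ (SL (A l) f).ncard ≤ l + 1 := by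
  obtain ⟨_, -, h⟩ := h
  exact ⟨SL_finite f, le_ncard_SL h.inv f, ncard_SL_le f⟩

theorem su (h : Ok r A A' l) :
    (SU A l).Finite ∧ l ≤ (SU A l).ncard ∧ (SU A l).ncard ≤ 3 * (l + 1) := by
  have hf : (SU A l).Finite := Set.finite_iUnion fun f => (h.sl f).1
  refine ⟨hf, (h.sl 0).2.1.trans (Set.ncard_le_ncard (Set.subset_iUnion _ 0) hf), ?_⟩
  refine (Set.ncard_iUnion_le_of_fintype _).trans ?_
  refine (Finset.sum_le_card_nsmul _ _ _ fun f _ => (h.sl f).2.2).trans ?_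
  simp

theorem lag (h : Ok r A A' l) (hmu : MUst r) {G : AddSubgroup (ν → ℤ)} (hG : G ∈ SU A l) :
    Lag l G := by
  obtain ⟨_, -, h⟩ := h
  obtain ⟨f, w, hw, rfl⟩ := Set.mem_iUnion.1 hG
  exact lag_slot hmu h f hw

theorem gen (h : Ok r A A' l) (f : Fin 3) : ∀ z ∈ SL (A l) f, ∀ z' ∈ SL (A l) f,
    ∃ σ ∈ Subgroup.closure {σ : ℂ ≃ₐ[K] ℂ | ∀ w ∈ SL (A l) f, mv (rbn r l (σ ^ l)) w = w},
      mv (rbn r l σ) z = z' := by
  obtain ⟨_, -, h⟩ := h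
  exact SL_gen h.inv h.inv' (rbn r l) f fun u hu => by
    obtain ⟨σ, hσ⟩ := h.big f u hu
    exact ⟨σ, by rw [rbn_eq]; exact hσ⟩

theorem stab (h : Ok r A A' l) {d : MZ}
    (hd : ∀ (l : ℕ) [Fact l.Prime] (σ : ℂ ≃ₐ[K] ℂ), Commute (zM ℤ_[l] d) (r l σ : Matrix ν ν ℤ_[l]))
    {G : AddSubgroup (ν → ℤ)} (hG : G ∈ SU A l) : ∀ x ∈ G, d *ᵥ x ∈ G := by
  obtain ⟨_, -, h⟩ := h
  obtain ⟨f, w, -, rfl⟩ := Set.mem_iUnion.1 hG
  obtain ⟨x, hx⟩ := h.en d (hd l)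
  exact fun y hy => slot_stab h.inv' hx f w hy

end Ok

/-- Tuples of primes with subgroups. -/
abbrev Tup (A : FA) {s : ℕ} (LL : Fin s → Finset ℕ) : Type := ∀ i, Sg (LL i) (SU A)

/-- Blocks of primes. -/
structure Blk (r : Rep K) (A : FA) (A' : FB) (Y n : ℕ) {s : ℕ} (LL : Fin s → Finset ℕ) : Prop where
  ok : ∀ i, ∀ l ∈ LL i, Ok r A A' l
  big : ∀ i, ∀ l ∈ LL i, Y < l ∧ l ≤ 2 * Y
  card : ∀ i, (LL i).card = n
  disj : ∀ i j, i ≠ j → Disjoint (LL i) (LL j)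

namespace Blk

variable {Y n s : ℕ} {LL : Fin s → Finset ℕ} (H : Blk r A A' Y n LL)
include H

theorem okt (ξ : Tup A LL) (i : Fin s) : Ok r A A' (ξ i).1.1 := H.ok i _ (ξ i).2.1

theorem eq_of {ξ ξ' : Tup A LL} {i j : Fin s} (h : (ξ i).1.1 = (ξ' j).1.1) : i = j := by
  by_contra hij
  exact Finset.disjoint_left.1 (H.disj i j hij) (ξ i).2.1 (h ▸ (ξ' j).2.1)

theorem inj (ξ : Tup A LL) : Function.Injective fun i => (ξ i).1.1 := fun _ _ h => H.eq_of h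

theorem eq_of_dvd (ξ : Tup A LL) {l : ℕ} (hl : l.Prime) (h : l ∣ ∏ i, (ξ i).1.1) :
    ∃ i, l = (ξ i).1.1 := by
  obtain ⟨i, -, hi⟩ := (hl.prime.dvd_finsetProd_iff _).1 h
  exact ⟨i, (Nat.prime_dvd_prime_iff_eq hl (H.okt ξ i).prime).1 hi⟩

/-- The Galois action on tuples. -/
def act : (ℂ ≃ₐ[K] ℂ) →* Equiv.Perm (Tup A LL) :=
  MonoidHom.toHomPerm
    { toFun := fun σ ξ i => ⟨((ξ i).1.1, mv (rbn r (ξ i).1.1 σ) (ξ i).1.2), (ξ i).2.1, by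
        obtain ⟨f, hf⟩ := Set.mem_iUnion.1 (ξ i).2.2
        exact Set.mem_iUnion.2 ⟨f, (H.okt ξ i).mv_mem σ hf⟩⟩
      map_one' := by
        funext ξ i
        obtain ⟨f, hf⟩ := Set.mem_iUnion.1 (ξ i).2.2
        exact Subtype.ext (Prod.ext rfl (Ok.mv_one hf))
      map_mul' := fun σ σ' => by
        funext ξ i
        exact Subtype.ext (Prod.ext rfl ((H.okt ξ i).mv_mul σ σ' _)) }

theorem act_apply (σ : ℂ ≃ₐ[K] ℂ) (ξ : Tup A LL) (i : Fin s) :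
    (H.act σ ξ i).1 = ((ξ i).1.1, mv (rbn r (ξ i).1.1 σ) (ξ i).1.2) := rfl

theorem om (i : Fin s) : (Sg (LL i) (SU A)).Finite ∧ n * Y ≤ (Sg (LL i) (SU A)).ncard ∧
    (Sg (LL i) (SU A)).ncard ≤ n * (9 * Y) := by
  obtain ⟨h1, h2⟩ := sg_card (Z := SU A) fun l hl => (H.ok i l hl).su.1
  rw [h2, ← H.card i]
  refine ⟨h1, Finset.card_nsmul_le_sum _ _ _ fun l hl => ?_,
    Finset.sum_le_card_nsmul _ _ _ fun l hl => ?_⟩
  · exact (H.big i l hl).1.le.trans (H.ok i l hl).su.2.1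
  · have := (H.ok i l hl).su.2.2
    have := H.big i l hl
    omega

theorem n_le (i : Fin s) : n ≤ Y := by
  have : LL i ⊆ Finset.Ioc Y (2 * Y) := fun l hl => Finset.mem_Ioc.2 (H.big i l hl)
  have := Finset.card_le_card this
  rw [H.card, Nat.card_Ioc] at this
  omega

theorem orbit (ξ : Tup A LL) : (Set.range fun σ => H.act σ ξ).ncard ≤ (9 * Y) ^ s := by
  have : ∀ i, Finite (Sg (LL i) (SU A)) := fun i => (H.om i).1.to_subtype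
  have h1 : (Set.range fun σ => H.act σ ξ) ⊆
      Set.univ.pi fun i => Subtype.val ⁻¹' Sg {(ξ i).1.1} (SU A) := by
    rintro _ ⟨σ, rfl⟩ i -
    exact ⟨Finset.mem_singleton_self _, (H.act σ ξ i).2.2⟩
  refine (Set.ncard_le_ncard h1 (Set.toFinite _)).trans ?_
  rw [ncard_pi]
  refine (Finset.prod_le_pow_card _ _ (9 * Y) fun i _ => ?_).trans (by simp)
  obtain ⟨h2, h3⟩ := sg_card (T := {(ξ i).1.1}) (Z := SU A) fun l hl => by
    rw [Finset.mem_singleton.1 hl]; exact (H.okt ξ i).su.1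
  refine (Set.ncard_le_ncard_of_injOn Subtype.val (fun _ h => h) Subtype.val_injective.injOn
    h2).trans ?_
  rw [h3, Finset.sum_singleton]
  have := (H.okt ξ i).su.2.2
  have := H.big i _ (ξ i).2.1
  omega

/-- Tuples with the same primes and slots are conjugate. -/
theorem trans (ξ ξ' : Tup A LL) (f : Fin s → Fin 3) (hl : ∀ i, (ξ' i).1.1 = (ξ i).1.1)
    (h : ∀ i, (ξ i).1.2 ∈ SL (A (ξ i).1.1) (f i)) (h' : ∀ i, (ξ' i).1.2 ∈ SL (A (ξ i).1.1) (f i)) :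
    ∃ σ, H.act σ ξ = ξ' := by
  obtain ⟨σ, hσ⟩ := trans_prod (fun i σ => mv (rbn r (ξ i).1.1 σ))
    (fun i => SL (A (ξ i).1.1) (f i)) (fun i => (ξ i).1.1) (fun i => (H.okt ξ i).prime) (H.inj ξ)
    (fun i => ((H.okt ξ i).sl _).1) (fun i z hz => Ok.mv_one hz)
    (fun i => (H.okt ξ i).mv_mul) (fun i σ z hz => (H.okt ξ i).mv_mem σ hz)
    (fun i j hij => by
      have h1 := ((H.okt ξ j).sl (f j)).2.2
      have h2 : (ξ i).1.1 % 32 = 1 := (H.okt ξ i).2.1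
      have h3 : (ξ j).1.1 % 32 = 1 := (H.okt ξ j).2.1
      omega)
    (fun i => (H.okt ξ i).gen _) _ _ h h'
  exact ⟨σ, funext fun i => Subtype.ext (Prod.ext (hl i).symm (hσ i))⟩

theorem exists_fam (hmu : MUst r) (hl : LAGRst) : ∃ g : Tup A LL → MZ,
    ∀ ξ, Iso (g ξ) (∏ i, (ξ i).1.1) ∧ ∀ i, Ker (g ξ) (ξ i).1.1 = (ξ i).1.2 := by
  have := fun ξ : Tup A LL => lagr_tuple hl (H.inj ξ) (fun i => (ξ i).1.2) fun i =>
    ⟨(H.okt ξ i).prime, (H.okt ξ i).2.1, (H.okt ξ i).lag hmu (ξ i).2.2⟩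
  choose g hg using this
  exact ⟨g, hg⟩

theorem tw {g : Tup A LL → MZ}
    (hg : ∀ ξ, Iso (g ξ) (∏ i, (ξ i).1.1) ∧ ∀ i, Ker (g ξ) (ξ i).1.1 = (ξ i).1.2) {d : MZ}
    (hd : ∀ (l : ℕ) [Fact l.Prime] (σ : ℂ ≃ₐ[K] ℂ), Commute (zM ℤ_[l] d) (r l σ : Matrix ν ν ℤ_[l]))
    (ξ : Tup A LL) : ∃ d' : MZ, g ξ * d = d' * g ξ := by
  refine iso_tw (hg ξ).1 fun x hx => ?_
  rw [mem_ker_prod (fun i => (H.okt ξ i).prime) (H.inj ξ)] at hx ⊢
  intro i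
  rw [(hg ξ).2]
  exact (H.okt ξ i).stab hd (ξ i).2.2 x ((hg ξ).2 i ▸ hx i)

theorem fam {a b : MZ} (hc : COMM a b r) {g : Tup A LL → MZ}
    (hg : ∀ ξ, Iso (g ξ) (∏ i, (ξ i).1.1) ∧ ∀ i, Ker (g ξ) (ξ i).1.1 = (ξ i).1.2)
    (X : Finset (Tup A LL)) : Fam (Ist a b) (2 * Y) X g fun ξ => ∏ i, (ξ i).1.1 where
  iso ξ _ := ⟨(hg ξ).1, H.tw hg (fun l _ σ => (hc l σ).1) ξ, H.tw hg (fun l _ σ => (hc l σ).2) ξ⟩
  sep ξ _ ξ' _ γ hγ c c' hc e := by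
    obtain ⟨h1, h2⟩ := iso_sep (hg ξ).1 (hg ξ').1 hγ hc e
    funext i
    obtain ⟨j, hj⟩ := H.eq_of_dvd ξ' (H.okt ξ i).prime
      (h1 ▸ Finset.dvd_prod_of_mem (fun i => (ξ i).1.1) (Finset.mem_univ i))
    obtain rfl := H.eq_of hj
    refine Subtype.ext (Prod.ext hj ?_)
    rw [← (hg ξ).2, ← (hg ξ').2, h2, hj]
  nb ξ _ ξ' _ := by
    rintro ⟨i, hi⟩
    have e : ∏ j ∈ Finset.univ.erase i, (ξ' j).1.1 = ∏ j ∈ Finset.univ.erase i, (ξ j).1.1 :=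
      Finset.prod_congr rfl fun j hj => by rw [hi j (Finset.ne_of_mem_erase hj)]
    have h1 := (hg ξ).1
    have h2 := (hg ξ').1
    rw [← Finset.mul_prod_erase _ _ (Finset.mem_univ i)] at h1 h2
    rw [e] at h2
    obtain ⟨u, u1, u2, u3⟩ := iso_nb h1 h2 fun q hq hd => by
      obtain ⟨j, hj, hd⟩ := (hq.prime.dvd_finsetProd_iff _).1 hd
      rw [(Nat.prime_dvd_prime_iff_eq hq (H.okt ξ j).prime).1 hd, (hg ξ).2,
        hi j (Finset.ne_of_mem_erase hj), (hg ξ').2]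
    refine ⟨_, _, u, (H.okt ξ i).prime.pos, ?_, ?_, u1, u2, u3⟩
    · rw [sq]
      exact Nat.mul_le_mul (H.big i _ (ξ i).2.1).2 (H.big i _ (ξ' i).2.1).2
    · exact ((H.okt ξ i).2.1).mul (H.okt ξ' i).2.1

end Blk

end M8.G
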