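import Pool.Agent.Lib.MP_33b3f9_ag.M8.G.Defs
import Pool.Agent.Lib.MP_33b3f9_ag.M4.G.Slot

/-!
The subgroups attached to the lines in a slot.
-/

set_option autoImplicit false

namespace M8.G

open Matrix M4 M4.G Pool.Agent.M4 Pool.Agent.M4.Mx
open scoped Kronecker

section kron

variable {R : Type} [CommRing R]

theorem kron_one_mulVec (T : Matrix κ κ R) (v : κ × Fin 2 → R) (i : κ) (c : Fin 2) :
    ((T ⊗ₖ (1 : M2 R)) *ᵥ v) (i, c) = (T *ᵥ fun j => v (j, c)) i := by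
  simp only [mulVec, dotProduct, Fintype.sum_prod_type, kroneckerMap_apply, one_apply, mul_ite,
    mul_one, mul_zero, ite_mul, zero_mul, Finset.sum_ite_eq, Finset.mem_univ, if_true]

theorem one_kron_mulVec (x : M2 R) (v : κ × Fin 2 → R) (i : κ) (c : Fin 2) :
    (((1 : Matrix κ κ R) ⊗ₖ x) *ᵥ v) (i, c) = ∑ d, x c d * v (i, d) := by
  simp only [mulVec, dotProduct, Fintype.sum_prod_type_right, kroneckerMap_apply, one_apply,
    one_mul, ite_mul, zero_mul, Finset.sum_ite_eq, Finset.mem_univ, if_true]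

theorem kron_one_mul (T T' : Matrix κ κ R) :
    T ⊗ₖ (1 : M2 R) * T' ⊗ₖ (1 : M2 R) = (T * T') ⊗ₖ (1 : M2 R) := by
  rw [← mul_kronecker_mul, Matrix.mul_one]

theorem left_inv_of_kron {T : Matrix κ κ R} {U : Matrix (κ × Fin 2) (κ × Fin 2) R}
    (h : U * T ⊗ₖ (1 : M2 R) = 1) : (Matrix.of fun i j => U (i, 0) (j, 0)) * T = 1 := by
  ext i j
  have h1 := congrFun (congrFun h (i, 0)) (j, 0)
  simp only [mul_apply, Fintype.sum_prod_type, kroneckerMap_apply, one_apply, mul_ite,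
    mul_one, mul_zero, Finset.sum_ite_eq', Finset.mem_univ, if_true, Prod.mk.injEq,
    and_true] at h1
  simp only [mul_apply, of_apply, one_apply, h1]

theorem contract_tq (h : Fin 3 → M2 R) (f : Fin 3) (w : Fin 2 → R) (v : κ × Fin 2 → R)
    (hv : ∀ i c, ∑ a, (w ᵥ* h f) a * v (Function.update i f a, c) = 0) (i : κ) (c : Fin 2) :
    ∑ a, w a * ((tp h ⊗ₖ (1 : M2 R)) *ᵥ v) (Function.update i f a, c) = 0 := by
  simp only [kron_one_mulVec]
  exact contract_tp h f w (fun j => v (j, c)) (fun i => hv i c) i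

theorem contract_en (x : M2 R) (f : Fin 3) (w : Fin 2 → R) (v : κ × Fin 2 → R)
    (hv : ∀ i c, ∑ a, w a * v (Function.update i f a, c) = 0) (i : κ) (c : Fin 2) :
    ∑ a, w a * (((1 : Matrix κ κ R) ⊗ₖ x) *ᵥ v) (Function.update i f a, c) = 0 := by
  have h0 := hv i 0
  have h1 := hv i 1
  simp only [one_kron_mulVec, Fin.sum_univ_two] at h0 h1 ⊢
  linear_combination x c 0 * h0 + x c 1 * h1

end kron

variable {l : ℕ} {A : Matrix (κ × Fin 2) ν (ZMod l)} {A' : Matrix ν (κ × Fin 2) (ZMod l)}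

theorem mv_mul [NeZero l] (B B' : Matrix ν ν (ZMod l)) (G : AddSubgroup (ν → ℤ)) :
    mv (B * B') G = mv B (mv B' G) := by
  ext x
  constructor
  · rintro ⟨y, hy, h⟩
    exact ⟨Kz.lift (B' *ᵥ Kz.vZ l y), ⟨y, hy, Kz.vZ_lift _⟩, by
      rw [h, Kz.vZ_lift, mulVec_mulVec]⟩
  · rintro ⟨y', ⟨y, hy, h'⟩, h⟩
    exact ⟨y, hy, by rw [h, h', mulVec_mulVec]⟩

theorem slot_mem {f : Fin 3} {w : Fin 2 → ZMod l} {x : ν → ℤ} : x ∈ slot A f w ↔
    ∀ (i : κ) (c : Fin 2), ∑ a, w a * (A *ᵥ Kz.vZ l x) (Function.update i f a, c) = 0 := Iff.rfl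

theorem mv_one_slot (f : Fin 3) (w : Fin 2 → ZMod l) :
    mv (1 : Matrix ν ν (ZMod l)) (slot A f w) = slot A f w := by
  ext x
  constructor
  · rintro ⟨y, hy, h⟩
    rw [one_mulVec] at h
    rw [slot_mem, h]
    exact hy
  · exact fun hx => ⟨x, hx, (one_mulVec _).symm⟩

theorem mv_slot [Fact l.Prime] (hA : A * A' = 1) (hA' : A' * A = 1) {B B' : Matrix ν ν (ZMod l)}
    (hB : B * B' = 1) {h : Fin 3 → M2 (ZMod l)}
    (hh : A * B * A' = tp h ⊗ₖ (1 : M2 (ZMod l))) (f : Fin 3) (w : Fin 2 → ZMod l) :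
    IsUnit (h f) ∧ mv B (slot A f w) = slot A f (w ᵥ* (h f)⁻¹) := by
  have hB' : B' * B = 1 := mul_eq_one_comm.1 hB
  have hAB : A * B = tp h ⊗ₖ (1 : M2 (ZMod l)) * A := by
    rw [← hh, Matrix.mul_assoc _ A', hA', Matrix.mul_one]
  have hT : A * B' * A' * tp h ⊗ₖ (1 : M2 (ZMod l)) = 1 := by
    rw [← hh]
    calc A * B' * A' * (A * B * A') = A * (B' * (A' * A) * B) * A' := by
          simp only [Matrix.mul_assoc]
      _ = 1 := by rw [hA', Matrix.mul_one, hB', Matrix.mul_one, hA]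
  have hT' := left_inv_of_kron hT
  have hu : ∀ s, IsUnit (h s).det := fun s => (isUnit_iff_isUnit_det _).1 (isUnit_of_tp hT' s)
  have hinv : tp h ⊗ₖ (1 : M2 (ZMod l)) * tp (fun s => (h s)⁻¹) ⊗ₖ (1 : M2 (ZMod l)) = 1 := by
    rw [kron_one_mul, Mx.tp_mul, ← one_kronecker_one, ← Mx.tp_one]
    exact congrArg (fun z => tp z ⊗ₖ (1 : M2 (ZMod l)))
      (funext fun s => mul_nonsing_inv _ (hu s))
  have hAB' : A * B' = tp (fun s => (h s)⁻¹) ⊗ₖ (1 : M2 (ZMod l)) * A := by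
    have h1 : A * B' * A' = (tp fun s => (h s)⁻¹) ⊗ₖ (1 : M2 (ZMod l)) := by
      rw [← Matrix.mul_one (A * B' * A'), ← hinv, ← Matrix.mul_assoc, hT, Matrix.one_mul]
    rw [← h1, Matrix.mul_assoc _ A', hA', Matrix.mul_one]
  refine ⟨isUnit_of_tp hT' f, ?_⟩
  ext x
  constructor
  · rintro ⟨y, hy, e⟩
    rw [slot_mem, e, mulVec_mulVec, hAB, ← mulVec_mulVec]
    refine contract_tq h f _ _ ?_
    rw [vecMul_vecMul, nonsing_inv_mul _ (hu f), vecMul_one]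
    exact hy
  · intro hx
    refine ⟨Kz.lift (B' *ᵥ Kz.vZ l x), ?_, by
      rw [Kz.vZ_lift, mulVec_mulVec, hB, one_mulVec]⟩
    rw [slot_mem, Kz.vZ_lift, mulVec_mulVec, hAB', ← mulVec_mulVec]
    exact contract_tq (fun s => (h s)⁻¹) f w _ hx

theorem mv_mem_SL [Fact l.Prime] (hA : A * A' = 1) (hA' : A' * A = 1) {B B' : Matrix ν ν (ZMod l)}
    (hB : B * B' = 1) {h : Fin 3 → M2 (ZMod l)} (hh : A * B * A' = tp h ⊗ₖ (1 : M2 (ZMod l)))
    {f : Fin 3} {G : AddSubgroup (ν → ℤ)} (hG : G ∈ SL A f) : mv B G ∈ SL A f := by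
  obtain ⟨w, hw, rfl⟩ := hG
  obtain ⟨hu, e⟩ := mv_slot hA hA' hB hh f w
  refine ⟨w ᵥ* (h f)⁻¹, fun h0 => hw ?_, e⟩
  have h1 := congrArg (· ᵥ* h f) h0
  simpa only [vecMul_vecMul, nonsing_inv_mul _ ((isUnit_iff_isUnit_det _).1 hu), vecMul_one,
    zero_vecMul] using h1

theorem slot_smul [Fact l.Prime] (f : Fin 3) {c : ZMod l} (hc : c ≠ 0) (w : Fin 2 → ZMod l) :
    slot A f (c • w) = slot A f w := by
  ext x
  simp only [slot_mem, Pi.smul_apply, smul_eq_mul, mul_assoc, ← Finset.mul_sum, mul_eq_zero, hc,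
    false_or]

/-- A matrix that acts on the fourth factor preserves the subgroups of the first three slots. -/
theorem slot_stab (hA' : A' * A = 1) {d : MZ} {x : M2 (ZMod l)}
    (hd : A * zM (ZMod l) d * A' = (1 : Matrix κ κ (ZMod l)) ⊗ₖ x) (f : Fin 3)
    (w : Fin 2 → ZMod l) {y : ν → ℤ} (hy : y ∈ slot A f w) : d *ᵥ y ∈ slot A f w := by
  have h1 : A * zM (ZMod l) d = (1 : Matrix κ κ (ZMod l)) ⊗ₖ x * A := by
    rw [← hd, Matrix.mul_assoc _ A', hA', Matrix.mul_one]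
  rw [slot_mem, ← Kz.mZ_mulVec, mulVec_mulVec, show Kz.mZ l d = zM (ZMod l) d from rfl, h1,
    ← mulVec_mulVec]
  exact contract_en x f w _ hy

end M8.G
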