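import Pool.Agent.Lib.MP_33b3f9_ag.M8.G.Slot
import Pool.Agent.Lib.MP_33b3f9_ag.M4.G.SlotB

/-!
Counting the subgroups of a slot, and generation by unipotent elements.
-/

set_option autoImplicit false

namespace M8.G

open Matrix M4 M4.G Pool.Agent.M4 Pool.Agent.M4.Mx
open scoped Kronecker

variable {l : ℕ} {A : Matrix (κ × Fin 2) ν (ZMod l)} {A' : Matrix ν (κ × Fin 2) (ZMod l)}

/-- Every `w ≠ 0` is a multiple of `![0, 1]` or of some `![1, c]` (`slot_smul`). -/
theorem SL_eq [Fact l.Prime] (f : Fin 3) :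
    SL A f = insert (slot A f ![0, 1]) (Set.range fun c : ZMod l => slot A f ![1, c]) := by
  ext G
  constructor
  · rintro ⟨w, hw, rfl⟩
    by_cases h0 : w 0 = 0
    · have h1 : w 1 ≠ 0 := fun h1 => hw (by funext i; fin_cases i <;> simp [h0, h1])
      refine Or.inl ?_
      rw [← slot_smul f h1 ![0, 1]]
      congr 1
      funext i
      fin_cases i <;> simp [h0]
    · refine Or.inr ⟨(w 0)⁻¹ * w 1, ?_⟩
      beta_reduce
      rw [← slot_smul f h0]
      congr 1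
      funext i
      fin_cases i <;> simp [h0]
  · rintro (rfl | ⟨c, rfl⟩)
    · exact ⟨_, fun h => one_ne_zero (congrFun h 1), rfl⟩
    · exact ⟨_, fun h => one_ne_zero (congrFun h 0), rfl⟩

theorem SL_finite [Fact l.Prime] (f : Fin 3) : (SL A f).Finite := by
  rw [SL_eq]
  exact (Set.finite_range _).insert _

theorem ncard_SL_le [Fact l.Prime] (f : Fin 3) : (SL A f).ncard ≤ l + 1 := by
  rw [SL_eq, ← Set.image_univ]
  refine (Set.ncard_insert_le _ _).trans (Nat.succ_le_succ ((Set.ncard_image_le).trans ?_))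
  rw [Set.ncard_univ, Nat.card_zmod]

/-- Test with the lift of `A' *ᵥ v`, `v j = ![-c, 1] (j f)`. -/
theorem slot_inj [Fact l.Prime] (hA : A * A' = 1) (f : Fin 3) :
    Function.Injective fun c : ZMod l => slot A f ![1, c] := by
  intro c c' e
  have key : ∀ d : ZMod l, Kz.lift (A' *ᵥ fun j => ![-c, 1] (j.1 f)) ∈ slot A f ![1, d] ↔
      d = c := fun d => by
    rw [slot_mem, Kz.vZ_lift, mulVec_mulVec, hA, one_mulVec]
    simp [neg_add_eq_zero, eq_comm]
  have h := (key c).2 rfl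
  beta_reduce at e
  rw [e] at h
  exact ((key c').1 h).symm

theorem le_ncard_SL [Fact l.Prime] (hA : A * A' = 1) (f : Fin 3) : l ≤ (SL A f).ncard := by
  have h := Set.ncard_le_ncard (s := Set.range fun c : ZMod l => slot A f ![1, c])
    (by rw [SL_eq]; exact Set.subset_insert _ _) (SL_finite (A := A) f)
  rwa [← Set.image_univ, Set.ncard_image_of_injective _ (slot_inj hA f), Set.ncard_univ,
    Nat.card_zmod] at h

/-- The unipotent elements act transitively on the subgroups of a slot. -/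
theorem SL_gen [Fact l.Prime] (hA : A * A' = 1) (hA' : A' * A = 1) {Γ : Type} [Group Γ]
    (ρ : Γ →* Matrix ν ν (ZMod l)) (f : Fin 3)
    (big : ∀ u : Matrix (Fin 2) (Fin 2) (ZMod l), u.det = 1 →
      ∃ σ, A * ρ σ * A' = tp (Function.update 1 f u) ⊗ₖ (1 : M2 (ZMod l))) :
    ∀ z ∈ SL A f, ∀ z' ∈ SL A f,
      ∃ σ ∈ Subgroup.closure {σ : Γ | ∀ w ∈ SL A f, mv (ρ (σ ^ l)) w = w}, mv (ρ σ) z = z' := by
  set H := Subgroup.closure {σ : Γ | ∀ w ∈ SL A f, mv (ρ (σ ^ l)) w = w} with hH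
  have one : ∀ z ∈ SL A f, mv (1 : Matrix ν ν (ZMod l)) z = z := by
    rintro _ ⟨w, -, rfl⟩
    exact mv_one_slot f w
  have step : ∀ u : Matrix (Fin 2) (Fin 2) (ZMod l), u.det = 1 → u ^ l = 1 →
      ∀ w, ∃ σ ∈ H, mv (ρ σ) (slot A f (w ᵥ* u)) = slot A f w := fun u h1 h2 w => by
    obtain ⟨σ, hσ⟩ := big u h1
    have e1 : Function.update (1 : Fin 3 → M2 (ZMod l)) f 1 = 1 := Function.update_eq_self f _
    have e : ∀ n : ℕ, A * ρ σ ^ n * A' =
        tp (Function.update 1 f (u ^ n)) ⊗ₖ (1 : M2 (ZMod l)) := fun n => by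
      induction n with
      | zero => rw [pow_zero, pow_zero, Matrix.mul_one, hA, e1, Mx.tp_one, one_kronecker_one]
      | succ n ih =>
        calc _ = A * (ρ σ ^ n * (A' * A) * ρ σ) * A' := by rw [hA', Matrix.mul_one, pow_succ]
          _ = A * ρ σ ^ n * A' * (A * ρ σ * A') := by simp only [Matrix.mul_assoc]
          _ = _ := by
            rw [ih, hσ, kron_one_mul, Mx.tp_mul, ← Function.update_mul, mul_one, pow_succ]
    have e2 : ρ σ ^ l = 1 := by
      calc _ = (A' * A) * ρ σ ^ l * (A' * A) := by rw [hA', Matrix.mul_one, Matrix.one_mul]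
        _ = A' * (A * ρ σ ^ l * A') * A := by simp only [Matrix.mul_assoc]
        _ = 1 := by rw [e, h2, e1, Mx.tp_one, one_kronecker_one, Matrix.mul_one, hA']
    refine ⟨σ, Subgroup.subset_closure fun z hz => ?_, ?_⟩
    · rw [map_pow, e2, one z hz]
    · rw [(mv_slot hA hA' (B' := ρ σ⁻¹) (by rw [← map_mul, mul_inv_cancel, map_one]) hσ f _).2,
        Function.update_self, vecMul_vecMul, mul_nonsing_inv _ (h1 ▸ isUnit_one), vecMul_one]
  have tr : ∀ {x y z : AddSubgroup (ν → ℤ)}, (∃ σ ∈ H, mv (ρ σ) x = y) →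
      (∃ σ ∈ H, mv (ρ σ) y = z) → ∃ σ ∈ H, mv (ρ σ) x = z := by
    rintro x _ _ ⟨σ, hσ, rfl⟩ ⟨τ, hτ, rfl⟩
    exact ⟨τ * σ, mul_mem hτ hσ, by rw [map_mul, mv_mul]⟩
  have sy : ∀ {x y : AddSubgroup (ν → ℤ)}, x ∈ SL A f → (∃ σ ∈ H, mv (ρ σ) x = y) →
      ∃ σ ∈ H, mv (ρ σ) y = x := by
    rintro x _ hx ⟨σ, hσ, rfl⟩
    exact ⟨σ⁻¹, inv_mem hσ, by rw [← mv_mul, ← map_mul, inv_mul_cancel, map_one, one x hx]⟩
  have up : ∀ c : ZMod l, ∃ σ ∈ H, mv (ρ σ) (slot A f ![1, c]) = slot A f ![1, 0] := fun c => by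
    have h := step !![1, c; 0, 1] (by simp) (by rw [slotb_up]; simp [← one_fin_two]) ![1, 0]
    rwa [show ![1, 0] ᵥ* !![1, c; 0, 1] = ![1, c] by simp] at h
  have base : ∀ z ∈ SL A f, ∃ σ ∈ H, mv (ρ σ) z = slot A f ![1, 0] := by
    intro z hz
    rw [SL_eq] at hz
    rcases hz with rfl | ⟨c, rfl⟩
    · have h := step !![1, 0; 1, 1] (by simp) (by rw [slotb_lo]; simp [← one_fin_two]) ![0, 1]
      rw [show ![0, 1] ᵥ* !![(1 : ZMod l), 0; 1, 1] = ![1, 1] by simp] at h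
      exact tr (sy ⟨_, fun h => one_ne_zero (congrFun h 0), rfl⟩ h) (up 1)
    · exact up c
  intro z hz z' hz'
  exact tr (base z hz) (sy hz' (base z' hz'))

end M8.G
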